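import Mathlib
import Pool.Agent.Lib.MP_8ce23f_nt.Defs
import Pool.Agent.Lib.MP_8ce23f_nt.Charge
import Pool.Agent.Lib.MP_8ce23f_nt.RR.Main

open Pool.Agent.Lib.MP_8ce23f_nt

/-- Nahm sums of every rank `r`: there is a bound `N` which depends only on `r` such that every
positive definite rational matrix `A` has at most `N` admissible vectors, unless `A` is
exceptional: it has an integral flat direction `v ≠ 0`, so that the solution `Q` of Nahm's
equations satisfies `∏ Q_i ^ v_i = 1`, its effective central charge is at least `1`, and the charge
splits as `charge A ∅ univ = |I| + charge A I Z`, an equation which determines every entry `A k k`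
with `k` not in `I ∪ Z` from the other entries of `A`. -/
theorem Pool.Agent.Results.MP_8ce23f_nt.AllRanks.result (r : ℕ) :
    ∃ N : ℕ, ∀ A : Matrix (Fin r) (Fin r) ℚ, A.PosDef →
      ({B : Fin r → ℚ | Admissible A B}.Finite ∧ {B : Fin r → ℚ | Admissible A B}.ncard ≤ N) ∨
      Exceptional (A.map fun x : ℚ => (x : ℝ)) :=
  RR.finite_or_exceptional r
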