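import Mathlib
import Pool.Agent.Lib.MP_8ce23f_nt.Defs
import Pool.Agent.Lib.MP_8ce23f_nt.AsyMod
import Pool.Agent.Lib.MP_8ce23f_nt.Charge
import Pool.Agent.Lib.MP_8ce23f_nt.RR.SZD

open Pool.Agent.Lib.MP_8ce23f_nt

/-- Nahm sums of every rank `r`: there is a bound `N` which depends only on `r` such that for every
positive definite rational matrix `A` the set of the real vectors `x` whose Nahm sum is
`exp (c / ε + κ + d ε) (1 + O(ε^K))` at `q = exp (-ε)`, for every `K`, is a union of at most `N`
affine subspaces of `ℝ^r`, each of a dimension `d` such that the effective central charge of `A`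
lies between `d` and `r - d`; it contains every admissible vector. -/
theorem Pool.Agent.Results.MP_8ce23f_nt.AsymptoticLocus.result (r : ℕ) :
    ∃ N : ℕ, ∀ A : Matrix (Fin r) (Fin r) ℚ, A.PosDef →
      (∃ T : Finset (AffineSubspace ℝ (Fin r → ℝ)), T.card ≤ N ∧
        {x | AsyModular (A.map fun x : ℚ => (x : ℝ)) x} = ⋃ M ∈ T, (M : Set (Fin r → ℝ)) ∧
        ∀ M ∈ T,
          (Module.finrank ℝ M.direction : ℝ) ≤
            charge (A.map fun x : ℚ => (x : ℝ)) ∅ Finset.univ ∧
          charge (A.map fun x : ℚ => (x : ℝ)) ∅ Finset.univ +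
            Module.finrank ℝ M.direction ≤ r) ∧
      ∀ B : Fin r → ℚ, Admissible A B →
        AsyModular (A.map fun x : ℚ => (x : ℝ)) fun i => (B i : ℝ) :=
  RR.asy_locus_dim r
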