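import Mathlib
import Pool.Agent.Lib.MP_8ce23f_nt.Defs
import Pool.Agent.Lib.MP_8ce23f_nt.Main

open Pool.Agent.Lib.MP_8ce23f_nt

/-- The complete list of modular Nahm sums for the identity matrix of every rank and, as a
consequence, the negative answer to the finiteness question. -/
theorem Pool.Agent.Results.MP_8ce23f_nt.IdentityClassification.result :
    (∀ (r : ℕ) (B : Fin r → ℚ) (C : ℚ),
      IsModularFunction (nahmSum (1 : Matrix (Fin r) (Fin r) ℚ) B C) ↔
        C = (∑ i, B i ^ 2) / 4 - (r : ℚ) / 48 ∧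
          ∀ z : ℚ, z ≠ 0 → z ≠ 1 / 2 → z ≠ -(1 / 2) →
            (Finset.univ.filter fun i => B i = z).card =
              (Finset.univ.filter fun i => B i = -z).card) ∧
    (∀ r : ℕ, 2 ≤ r → (1 : Matrix (Fin r) (Fin r) ℚ).PosDef ∧
      {B : Fin r → ℚ | Admissible (1 : Matrix (Fin r) (Fin r) ℚ) B}.Infinite) ∧
    ¬ ∀ r : ℕ, 1 ≤ r → ∀ A : Matrix (Fin r) (Fin r) ℚ, A.PosDef →
      {B : Fin r → ℚ | Admissible A B}.Finite := by
  refine ⟨fun r B C => isModular_nahmSum_one_iff B C,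
    fun r hr => ⟨Matrix.PosDef.one, admissible_one_infinite r hr⟩, fun h => ?_⟩
  exact admissible_one_infinite 2 le_rfl (h 2 one_le_two 1 Matrix.PosDef.one)
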