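import Mathlib
import Pool.Agent.Lib.MP_8ce23f_nt.Defs
import Pool.Agent.Lib.MP_8ce23f_nt.R2.Final3

open Pool.Agent.Lib.MP_8ce23f_nt

/-- Dichotomy for the admissible vectors of the positive definite rational matrices of rank two:
for the matrices `(a, 1-a; 1-a, a)` there are infinitely many, for every other matrix there are
at most `N`, where `N` is an absolute constant. -/
theorem Pool.Agent.Results.MP_8ce23f_nt.RankTwo.result :
    ∃ N : ℕ, ∀ A : Matrix (Fin 2) (Fin 2) ℚ, A.PosDef →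
      ((∃ a : ℚ, A = !![a, 1 - a; 1 - a, a]) ∧ {B : Fin 2 → ℚ | Admissible A B}.Infinite) ∨
      ((¬∃ a : ℚ, A = !![a, 1 - a; 1 - a, a]) ∧ {B : Fin 2 → ℚ | Admissible A B}.Finite ∧
        {B : Fin 2 → ℚ | Admissible A B}.ncard ≤ N) := by
  obtain ⟨N, hN⟩ := R2.rank_two_uniform
  refine ⟨N, fun A hA => ?_⟩
  by_cases h : ∃ a : ℚ, A = !![a, 1 - a; 1 - a, a]
  · exact Or.inl ⟨h, ((R2.rank_two A hA).1).2 h⟩
  · exact Or.inr ⟨h, (hN A hA).1 h⟩
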